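import Pool.Agent.H98.EX.LTargets
import Pool.Agent.H98.CEL.FNA

/-!
# The final chain (row FNX of the board exa)
-/

set_option autoImplicit false

open MeasureTheory ProbabilityTheory Filter Topology
open Pool.Agent.H95 Pool.Agent.H95.Cop
open Pool.Agent.H98.CE (pc WB HK OBJ nx Fl T_CHF T_AS1 T_AS2)
open Pool.Agent.H98.CEL (fna_two fna_end ev_lt)

namespace Pool.Agent.H57.EX

open Pool.Agent.H98.EX

/-- lower bound of the power of `κ` -/
lemma kap_pow (x r α κ : ℝ) (hx : 0 < x) (hx1 : x ^ 4 ≤ 1) (hr0 : 0 < r) (hr : r ≤ 1 / 64)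
    (hα0 : 1 - x ^ 4 ≤ α) (hα : 0 < α) (hκ : κ = (1 - r) ^ 2 * x ^ 4 / 4) :
    (1 - r) * x ^ 2 / 2 - x ^ 4 ≤ κ ^ (1 / (1 + α)) := by
  have h1r : 0 < 1 - r := by linarith
  have hκ0 : 0 < κ := by rw [hκ]; positivity
  have hκ1 : κ ≤ 1 := by
    rw [hκ]
    have h1 : (1 - r) ^ 2 ≤ 1 := by nlinarith
    have h2 : (1 - r) ^ 2 * x ^ 4 ≤ 1 * 1 := mul_le_mul h1 hx1 (by positivity) zero_le_one
    linarith
  have hx4 : 0 < x ^ 4 := by positivity
  have hγ : 1 / (1 + α) ≤ 1 / 2 + x ^ 4 / 2 := by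
    rw [div_le_iff₀ (by linarith)]
    have h1 : (1 / 2 + x ^ 4 / 2) * (1 + (1 - x ^ 4)) ≤ (1 / 2 + x ^ 4 / 2) * (1 + α) :=
      mul_le_mul_of_nonneg_left (by linarith) (by positivity)
    have h2 : 0 ≤ x ^ 4 * (1 - x ^ 4) := mul_nonneg hx4.le (by linarith)
    have h3 : (1 / 2 + x ^ 4 / 2) * (1 + (1 - x ^ 4)) = 1 + x ^ 4 * (1 - x ^ 4) / 2 := by ring
    linarith
  have hs : κ ^ (1 / 2 : ℝ) = (1 - r) * x ^ 2 / 2 := by
    have h1 : κ = ((1 - r) * x ^ 2 / 2) ^ (2 : ℝ) := by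
      rw [hκ, Real.rpow_two]; ring
    rw [h1, ← Real.rpow_mul (by positivity)]
    norm_num
  set y : ℝ := (1 - r) * x ^ 2 / 2 with hy
  have hy0 : 0 < y := by positivity
  have hκy : κ = y ^ 2 := by rw [hκ, hy]; ring
  have hlog : -(2 / y) ≤ Real.log κ := by
    have h1 : Real.log κ = -(2 * Real.log (1 / y)) := by
      rw [hκy, Real.log_pow, one_div, Real.log_inv]
      push_cast; ring
    have h2 : Real.log (1 / y) ≤ 1 / y := by
      have := Real.log_le_sub_one_of_pos (show 0 < 1 / y by positivity)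
      linarith
    have h3 : 2 / y = 2 * (1 / y) := by ring
    rw [h1, h3]
    linarith
  have hp : 1 - x ^ 4 / y ≤ κ ^ (x ^ 4 / 2) := by
    rw [Real.rpow_def_of_pos hκ0]
    have h1 : -(x ^ 4 / y) ≤ Real.log κ * (x ^ 4 / 2) := by
      have h2 : -(2 / y) * (x ^ 4 / 2) ≤ Real.log κ * (x ^ 4 / 2) :=
        mul_le_mul_of_nonneg_right hlog (by positivity)
      have h3 : -(2 / y) * (x ^ 4 / 2) = -(x ^ 4 / y) := by ring
      rw [← h3]; exact h2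
    have h4 := Real.add_one_le_exp (Real.log κ * (x ^ 4 / 2))
    linarith
  calc (1 - r) * x ^ 2 / 2 - x ^ 4 = y * (1 - x ^ 4 / y) := by
        rw [← hy]; field_simp
    _ ≤ y * κ ^ (x ^ 4 / 2) := mul_le_mul_of_nonneg_left hp hy0.le
    _ = κ ^ (1 / 2 + x ^ 4 / 2 : ℝ) := by rw [Real.rpow_add hκ0, hs]
    _ ≤ κ ^ (1 / (1 + α)) := Real.rpow_le_rpow_of_exponent_ge hκ0 hκ1 hγ

/-- the weight of a step -/
lemma omx (x r e b κγ HH : ℝ) (hx : 0 < x) (hx1 : x ≤ 1) (hu : 0 < 1 - r - e)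
    (hr0 : 0 < r) (hb : 12 / (1 - r - e) ≤ b) (hxu : x ≤ (1 - r - e) / 4) (hb6 : 6 ≤ b)
    (hκγ : (1 - r) * x ^ 2 / 2 - x ^ 4 ≤ κγ) (hκ0 : 0 ≤ κγ) (hHH : b / 2 - 3 ≤ HH) :
    e * x ^ 2 * b / 4 ≤ κγ * HH := by
  have h1 : ((1 - r) * x ^ 2 / 2 - x ^ 4) * (b / 2 - 3) ≤ κγ * HH := by
    calc ((1 - r) * x ^ 2 / 2 - x ^ 4) * (b / 2 - 3) ≤ κγ * (b / 2 - 3) :=
          mul_le_mul_of_nonneg_right hκγ (by linarith)
      _ ≤ κγ * HH := mul_le_mul_of_nonneg_left hHH hκ0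
  refine le_trans ?_ h1
  have hxx : x ^ 2 ≤ (1 - r - e) / 4 := by
    calc x ^ 2 = x * x := sq x
      _ ≤ x * 1 := mul_le_mul_of_nonneg_left hx1 hx.le
      _ ≤ (1 - r - e) / 4 := by linarith
  rw [div_le_iff₀ hu] at hb
  have h2 : x ^ 2 * b ≤ (1 - r - e) / 4 * b := mul_le_mul_of_nonneg_right hxx (by linarith)
  have h4 : 0 ≤ x ^ 2 := by positivity
  have h3 : e * b / 4 ≤ ((1 - r) / 2 - x ^ 2) * (b / 2 - 3) := by
    have h5 : ((1 - r) / 2 - x ^ 2) * (b / 2 - 3) - e * b / 4 =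
        b * (1 - r - e) / 4 - 3 / 2 * (1 - r) - x ^ 2 * b / 2 + 3 * x ^ 2 := by ring
    have h6 : (1 - r - e) / 4 * b = b * (1 - r - e) / 4 := by ring
    rw [h6] at h2
    linarith
  calc e * x ^ 2 * b / 4 = x ^ 2 * (e * b / 4) := by ring
    _ ≤ x ^ 2 * (((1 - r) / 2 - x ^ 2) * (b / 2 - 3)) := mul_le_mul_of_nonneg_left h3 h4
    _ = _ := by ring

/-- the probability of too many high boxes -/
lemma pro (v b α n G : ℝ) (c l : ℕ) (r : ℕ) (hv : 1 ≤ v) (hα : 0 < α) (hα1 : α ≤ 1)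
    (hb : 0 ≤ b) (hn : n ≤ Real.exp (b * ((l : ℝ) + 1 / 2) / 2)) (hn0 : 0 ≤ n)
    (hr : (r : ℝ) ≤ v + 1) (hG : G ≤ Real.exp (b / 2)) (hG0 : 0 ≤ G)
    (he : v ^ (c + 1) * Real.exp (-(3 / 4 * b)) ≤ 1 / 16) :
    2 * ((r : ℝ) * (G + 1)) * (n * v ^ c * Real.exp (-(b * ((l + 3 : ℕ) : ℝ) / (1 + α)))) ≤
      1 / 2 := by
  have h1 : (r : ℝ) * (G + 1) ≤ (2 * v) * (2 * Real.exp (b / 2)) := by
    have h2 : 1 ≤ Real.exp (b / 2) := Real.one_le_exp (by positivity)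
    exact mul_le_mul (by linarith) (by linarith) (by positivity) (by positivity)
  have h2 : Real.exp (-(b * ((l + 3 : ℕ) : ℝ) / (1 + α))) ≤
      Real.exp (-(b * ((l : ℝ) + 3) / 2)) := by
    apply Real.exp_le_exp.mpr
    apply neg_le_neg
    push_cast
    exact div_le_div_of_nonneg_left (by positivity) (by linarith) (by linarith)
  calc 2 * ((r : ℝ) * (G + 1)) * (n * v ^ c * Real.exp (-(b * ((l + 3 : ℕ) : ℝ) / (1 + α))))
      ≤ 2 * ((2 * v) * (2 * Real.exp (b / 2))) * (Real.exp (b * ((l : ℝ) + 1 / 2) / 2) * v ^ c *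
          Real.exp (-(b * ((l : ℝ) + 3) / 2))) := by
        gcongr
    _ = 8 * (v ^ (c + 1) * (Real.exp (b / 2) * Real.exp (b * ((l : ℝ) + 1 / 2) / 2) *
          Real.exp (-(b * ((l : ℝ) + 3) / 2)))) := by ring
    _ = 8 * (v ^ (c + 1) * Real.exp (-(3 / 4 * b))) := by
        rw [← Real.exp_add, ← Real.exp_add]
        congr 3
        ring
    _ ≤ 1 / 2 := by linarith

theorem pf_FNX (hHKX : T_HKX) (hTLQ : Pool.Agent.H98.SLN.T_TLQ) (hCHF : T_CHF) (hAS1 : T_AS1)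
    (hAS2 : T_AS2) : T_FNX := by
  intro ϑ r U kl c0 e l J t hr0 hr1 hkl hc0 he0 her hOB ht hth
  obtain ⟨c, hc⟩ := hOB
  obtain ⟨S0, hS0⟩ : ∃ S0 : ℝ, S0 = ∑ j ∈ Finset.Icc (l + 3) J, t j := ⟨_, rfl⟩
  rw [← hS0] at hth
  have hS00 : 0 ≤ S0 := by rw [hS0]; exact Finset.sum_nonneg fun j _ => ht j
  have hS0p : 0 < S0 := by
    rcases hS00.lt_or_eq with h | h
    · exact h
    · rw [← h] at hth; simp at hth; linarith
  obtain ⟨th, hthd⟩ : ∃ th : ℝ, th = e * (Lm kl * c0 ^ 2) * S0 := ⟨_, rfl⟩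
  rw [← hthd] at hth
  have hlogth : 0 < Real.log th := Real.log_pos hth
  have h1r : 0 < 1 - r := by linarith
  have hu : 0 < 1 - r - e := by linarith
  obtain ⟨w0, hw0⟩ : ∃ w0 : ℝ, w0 = c0 / (2 * kl) := ⟨_, rfl⟩
  have hw0p : 0 < w0 := by rw [hw0]; positivity
  have hπ := Real.pi_pos
  obtain ⟨q0, hq0⟩ : ∃ q0 : ℝ, q0 = Real.sqrt 2 * w0 * S0 / (4 * Real.pi) := ⟨_, rfl⟩
  have hq0p : 0 < q0 := by rw [hq0]; positivity
  have ev1 := (hAS1 (c + 10) ((1 - r) ^ 2 / 512) (Real.log th) (by positivity) hlogth).1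
  have ev2 := (hAS1 (c + 1) (1 / 16) (3 / 4 * w0) (by norm_num) (by positivity)).1
  have ev3 := ev_lt (1 / 16) (by norm_num)
  have ev4 := ev_lt (1 / (w0 / 2)) (by positivity)
  have ev5 := ev_lt (w0 / 6) (by positivity)
  have ev6 := ev_lt (w0 / (12 / (1 - r - e))) (by positivity)
  have ev7 := ev_lt ((1 - r - e) / 4) (by positivity)
  have ev8 := ev_lt (1 / (1 / q0)) (by positivity)
  have hall : ∀ᶠ x in 𝓝[>] (0 : ℝ), ∀ (K : PMF ℕ) (ν : Measure ℝ) (α cK τ : ℝ)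
      (k q : ℕ), LX K ν α cK x r ϑ kl τ U k q → ∃ (n : ℕ) (s' : ℝ), 1 ≤ n ∧ 0 < s' ∧
      4 * n / ((1 - r) ^ 2 * x ^ 4 / 4) <
        s' * (iid ν).real {y : ℕ → ℝ | s' ≤ WB K k n y ^ (1 / (1 + α))} := by
    filter_upwards [hc, ev1, ev2, ev3, ev4, ev5, ev6, ev7, ev8, self_mem_nhdsWithin] with x hx
      h1 h2 h3 h4 h5 h6 h7 h8 hx0
    have hx0' : 0 < x := hx0
    intro K ν α cK τ k q hLX
    obtain ⟨n, hn1, hn2, hobj⟩ := hx K ν α cK τ k q hLX
    have hRX := hLX.rx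
    have hRG := hRX.rg
    have hprob := hLX.lm.eg.prob
    obtain ⟨hHK, -, -⟩ := hHKX K α cK (x ^ 4) r k q hRX
    obtain ⟨hk1, -, -, -, -⟩ := hTLQ K α cK (x ^ 4) k q hRG
    have hδ1 := hRG.δ1
    have hα0 := hRG.α0
    have hα1 := hRG.α1
    have hαp : 0 < α := by
      have : (1 : ℝ) / 2 ^ 20 < 1 := by norm_num
      linarith
    obtain ⟨v, hv⟩ : ∃ v : ℝ, v = 1 / x := ⟨_, rfl⟩
    obtain ⟨b, hb⟩ : ∃ b : ℝ, b = bX c0 kl x := ⟨_, rfl⟩
    obtain ⟨κ, hκ⟩ : ∃ κ : ℝ, κ = (1 - r) ^ 2 * x ^ 4 / 4 := ⟨_, rfl⟩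
    have hv0 : 0 < v := by rw [hv]; positivity
    have hxv : x = 1 / v := by rw [hv]; field_simp
    have hbv : b = w0 * v := by rw [hb, hw0, hv, bX]; field_simp
    have hb0 : 0 < b := by rw [hbv]; positivity
    have hv16 : 16 ≤ v := by rw [hv, le_div_iff₀ hx0']; linarith
    have hv1 : 1 ≤ v := by linarith
    have hwv : w0 / 2 ≤ v := by
      rw [lt_div_iff₀ (by positivity)] at h4
      rw [hv, le_div_iff₀ hx0']
      linarith
    have hb6 : 6 ≤ b := by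
      rw [lt_div_iff₀ (by positivity)] at h5
      rw [hbv, hv, mul_one_div, le_div_iff₀ hx0']
      linarith
    have hbu : 12 / (1 - r - e) ≤ b := by
      rw [lt_div_iff₀ (by positivity)] at h6
      rw [hbv, hv, mul_one_div, le_div_iff₀ hx0']
      linarith
    have hqv : 1 / q0 ≤ v := by
      rw [lt_div_iff₀ (by positivity)] at h8
      rw [hv, le_div_iff₀ hx0']
      linarith
    have hqv' : 1 ≤ q0 * v := by
      rw [div_le_iff₀ hq0p] at hqv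
      linarith
    have hx1 : x ≤ 1 := by linarith
    have hx41 : x ^ 4 ≤ 1 := pow_le_one₀ hx0'.le hx1
    have hκ0 : 0 < κ := by rw [hκ]; positivity
    have hκ1 : κ ≤ 1 := by
      rw [hκ]
      have h9 : (1 - r) ^ 2 ≤ 1 := pow_le_one₀ h1r.le (by linarith)
      have h10 : (1 - r) ^ 2 * x ^ 4 ≤ 1 * 1 := mul_le_mul h9 hx41 (by positivity) zero_le_one
      linarith
    rw [← hκ] at hHK
    rw [← hb, ← hv] at hobj
    rw [← hb] at hn2
    -- the numbers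
    obtain ⟨G, hG⟩ : ∃ G : ℕ, G = ⌊Real.exp (b / 2)⌋₊ := ⟨_, rfl⟩
    have hGX : (G : ℝ) ≤ Real.exp (b / 2) := by rw [hG]; exact Nat.floor_le (Real.exp_pos _).le
    have hXG : Real.exp (b / 2) < G + 1 := by rw [hG]; exact Nat.lt_floor_add_one _
    have hX2 : 2 ≤ Real.exp (b / 2) := by
      have := Real.add_one_le_exp (b / 2)
      linarith
    have hGh : Real.exp (b / 2) / 2 ≤ G := by linarith
    have hG1 : 1 ≤ G := by
      have : (0 : ℝ) < G := by linarith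
      exact_mod_cast this
    obtain ⟨r', hr'⟩ : ∃ r' : ℕ, r' = ⌈v⌉₊ := ⟨_, rfl⟩
    have hr'1 : v ≤ r' := by rw [hr']; exact Nat.le_ceil v
    have hr'2 : (r' : ℝ) ≤ v + 1 := by rw [hr']; exact (Nat.ceil_lt_add_one hv0.le).le
    have hrp : 1 ≤ r' := by
      have : (0 : ℝ) < r' := by linarith
      exact_mod_cast this
    obtain ⟨A, hA⟩ : ∃ A : ℕ, A = r' * (G + 1) := ⟨_, rfl⟩
    have hA1 : 1 ≤ A := by rw [hA]; exact Nat.mul_pos hrp (by omega)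
    obtain ⟨J', hJ'⟩ : ∃ J' : ℕ, J' = ⌈v ^ (c + 5)⌉₊ := ⟨_, rfl⟩
    have hJ1 : v ^ (c + 5) ≤ J' := by rw [hJ']; exact Nat.le_ceil _
    have hv5 : 1 ≤ v ^ (c + 5) := one_le_pow₀ hv1
    have hJ2 : (J' : ℝ) ≤ 2 * v ^ (c + 5) := by
      have : (J' : ℝ) < v ^ (c + 5) + 1 := by rw [hJ']; exact Nat.ceil_lt_add_one (by positivity)
      linarith
    have hJp : 1 ≤ J' := by
      have : (0 : ℝ) < J' := by linarith
      exact_mod_cast this
    obtain ⟨HH, hHH⟩ : ∃ HH : ℝ, HH = ∑ g ∈ Finset.Ico 2 (G + 2), 1 / ((g : ℝ) + 1) := ⟨_, rfl⟩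
    obtain ⟨hH1, -⟩ := (hAS2 1 one_pos).2.2 G hG1
    rw [← hHH] at hH1
    have hHH3 : b / 2 - 3 ≤ HH := by
      have h9 : Real.log (Real.exp (b / 2) / 2) ≤ Real.log G := Real.log_le_log (by positivity) hGh
      rw [Real.log_div (by positivity) (by norm_num), Real.log_exp] at h9
      have := Real.log_two_lt_d9
      linarith
    have hκγ := kap_pow x r α κ hx0' hx41 hr0 hr1 hα0 hαp hκ
    have hω := omx x r e b (κ ^ (1 / (1 + α))) HH hx0' hx1 hu hr0 hbu h7.le hb6 hκγ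
      (Real.rpow_nonneg hκ0.le _) hHH3
    have hn0 : (0 : ℝ) < n := by exact_mod_cast hn1
    have he3 : v ^ (c + 1) * Real.exp (-(3 / 4 * b)) ≤ 1 / 16 := by
      have h9 : 3 / 4 * b = 3 / 4 * w0 / x := by rw [hbv, hv]; ring
      rw [h9, hv]
      exact h2
    have hp' : ((A + A : ℕ) : ℝ) * (n * v ^ c * Real.exp (-(b * ((l + 3 : ℕ) : ℝ) / (1 + α)))) ≤
        1 / 2 := by
      have h9 : ((A + A : ℕ) : ℝ) = 2 * ((r' : ℝ) * (G + 1)) := by rw [hA]; push_cast; ring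
      rw [h9]
      exact pro v b α n G c l r' hv1 hαp hα1 hb0.le hn2 hn0.le hr'2 hGX (Nat.cast_nonneg G) he3
    have hE1 : (1 : ℝ) ≤ Real.exp (v ^ c) := Real.one_le_exp (by positivity)
    -- the densities
    have ha0 : 0 < aX c0 kl x := by rw [aX, ← hb]; positivity
    obtain ⟨S1, hS1⟩ : ∃ S1 : ℝ, S1 = q0 * v ^ 2 := ⟨_, rfl⟩
    have hS11 : 1 ≤ S1 := by
      rw [hS1]
      calc (1 : ℝ) ≤ q0 * v := hqv'
        _ ≤ q0 * v * v := le_mul_of_one_le_right (by positivity) hv1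
        _ = q0 * v ^ 2 := by ring
    have hsum : ∑ j ∈ Finset.Icc (l + 3) J, aX c0 kl x * t j = 2 * (1 / v) * S1 := by
      rw [← Finset.mul_sum, ← hS0, hS1, hq0, aX, ← hb, hbv]
      field_simp
      ring
    have hωS : e * x ^ 2 * b / 4 * (2 * (1 / v) * S1) = th := by
      rw [hthd, Lm, hS1, hq0, hbv, hxv, hw0]
      field_simp
      ring
    have hSv : 16 / S1 ^ 2 ≤ v := by
      rw [div_le_iff₀ (by positivity)]
      have h9 : 1 ≤ S1 ^ 2 := one_le_pow₀ hS11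
      calc (16 : ℝ) ≤ v := hv16
        _ ≤ v * S1 ^ 2 := le_mul_of_one_le_right hv0.le h9
    have hGv : (G : ℝ) ≤ Real.exp (1 * v ^ 2) := by
      refine hGX.trans (Real.exp_le_exp.mpr ?_)
      rw [hbv]
      calc w0 * v / 2 = w0 / 2 * v := by ring
        _ ≤ v * v := mul_le_mul_of_nonneg_right hwv hv0.le
        _ = 1 * v ^ 2 := by ring
    have htwo := fna_two v 1 S1 (1 * v ^ 2) (Real.exp (v ^ c)) th c r' G A n J' (by linarith)
      (by linarith) (by linarith) hSv rfl one_pos rfl hth.le hr'2 hGv hA1 hn1 hJ1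
    have hA0 : (0 : ℝ) < A := by exact_mod_cast hA1
    have hth0 : 0 < th := by linarith
    have hS10 : 0 < S1 := by linarith
    obtain ⟨s', hs'0, hs'⟩ := hCHF K ν k α b κ n J (fun j => aX c0 kl x * t j) (v ^ c)
      (Real.exp (v ^ c)) hk1 hαp hb0.le hκ0 hκ1 hHK hn1 hE1 hobj
      (fun j => mul_nonneg ha0.le (ht j)) (l + 3) (A + A) G A r' (by omega) hG1
      (by rw [← hA]) hp' (e * x ^ 2 * b / 4)
      ((A : ℝ) * n * (2 * (1 / v) * S1) * th ^ r' / 2) J'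
      (by positivity) (by rw [← hHH]; exact hω)
      (by rw [hsum, hωS]) (by positivity) hJp htwo
    have hend := fna_end v S1 ((1 - r) ^ 2 / (2 * v ^ 3)) th c r' A n J' hv1 hS10 (by positivity)
      hth hr'1 hA1 hn1 hJp hJ2 (by
        have h9 : Real.log th / x = Real.log th * v := by rw [hv]; ring
        rw [h9, ← hv] at h1
        have h10 : v ^ (c + 10) = v ^ (c + 7) * v ^ 3 := by rw [← pow_add]
        rw [h10] at h1
        have h11 : (1 - r) ^ 2 / (2 * v ^ 3) * S1 / 256 = (1 - r) ^ 2 / 512 * S1 / v ^ 3 := by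
          field_simp; ring
        rw [h11, le_div_iff₀ (by positivity)]
        calc v ^ (c + 7) * Real.exp (-(Real.log th * v)) * v ^ 3
            = v ^ (c + 7) * v ^ 3 * Real.exp (-(Real.log th * v)) := by ring
          _ ≤ (1 - r) ^ 2 / 512 := h1
          _ ≤ (1 - r) ^ 2 / 512 * S1 := le_mul_of_one_le_right (by positivity) hS11)
    refine ⟨(A + A) * n, s', Nat.mul_pos (by omega) hn1, hs'0, ?_⟩
    refine lt_of_lt_of_le ?_ hs'
    have e1' : (((A + A) * n : ℕ) : ℝ) = 2 * (A : ℝ) * n := by push_cast; ring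
    have e2' : (1 - r) ^ 2 * x ^ 4 / 4 = (1 - r) ^ 2 / (2 * v ^ 3) * (1 / v) / 2 := by
      rw [hxv]; field_simp; ring
    rw [e1', e2']
    exact hend
  rw [eventually_nhdsWithin_iff, Metric.eventually_nhds_iff] at hall
  obtain ⟨x0, hx0, hall⟩ := hall
  refine ⟨x0, hx0, fun x hx hxx => ?_⟩
  refine hall ?_ hx
  rw [Real.dist_eq, sub_zero, abs_of_pos hx]
  exact hxx

end Pool.Agent.H57.EX
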